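import Pool.Agent.Y458.NS.AL
import Pool.Agent.Y8.Stm7

/-!
Job 399 (helper285): the alternative for points which are carried away at their own scale in a
short time (a variant of `Pool.Agent.Y458.NS.t_ALT`).
-/

open MeasureTheory Set Metric
open scoped ContDiff

namespace Pool.Agent.Y285.NS

open H459R3.NS W221.NS Pool.Agent.Y8 Pool.Agent.Y458.NS

/-- the final arithmetic -/
lemma arith' {CM c₀ CD q : ℝ} (hc₀ : 0 < c₀) (hCM : 0 < CM) (hCD : 0 < CD) (hq : 0 < q)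
    (hq1 : q ≤ 1) (hqs : q * (2 * CM / c₀ + 4 * CD) ≤ 1 / 32) {r L U B' Q : ℝ} (hr : 0 < r)
    (hL : 0 < L) (hLr : L ≤ r ^ 2) (hU : U * L = r) (hB0 : 0 ≤ B') (hB : B' * r ≤ q ^ 2)
    (hQ : Q ≤ q ^ 2 / r)
    (hfin : r / 8 ≤ (1 / c₀ * (c₀ / 4 * (U / 4) + CM * (q / (2 * r)) + CM * B')
      + CD * (2 * r * q / r ^ 2)) * L
      + (1 / c₀ * (CM * (r * r / (2 * q))) + CD * (2 * r * r / q)) * Q) : False := by
  have h1 : (1 / c₀ * (CM * (r * r / (2 * q))) + CD * (2 * r * r / q)) * Q ≤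
      (1 / c₀ * (CM * (r * r / (2 * q))) + CD * (2 * r * r / q)) * (q ^ 2 / r) :=
    mul_le_mul_of_nonneg_left hQ (by positivity)
  have h2 : (1 / c₀ * (CM * (r * r / (2 * q))) + CD * (2 * r * r / q)) * (q ^ 2 / r) =
      CM / c₀ * (r * q / 2) + 2 * CD * (r * q) := by
    field_simp
  rw [h2] at h1
  have h3 : (1 / c₀ * (c₀ / 4 * (U / 4) + CM * (q / (2 * r)) + CM * B')
      + CD * (2 * r * q / r ^ 2)) * L =
      U * L / 16 + (CM / c₀ * (q / (2 * r)) + CM / c₀ * B' + 2 * CD * (q / r)) * L := by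
    field_simp
    ring
  rw [h3, hU] at hfin
  have hk : 0 ≤ CM / c₀ := by positivity
  have h4 : (CM / c₀ * (q / (2 * r)) + CM / c₀ * B' + 2 * CD * (q / r)) * L ≤
      (CM / c₀ * (q / (2 * r)) + CM / c₀ * B' + 2 * CD * (q / r)) * r ^ 2 :=
    mul_le_mul_of_nonneg_left hLr (by positivity)
  have h5 : (CM / c₀ * (q / (2 * r)) + CM / c₀ * B' + 2 * CD * (q / r)) * r ^ 2 =
      CM / c₀ * (q * r / 2) + CM / c₀ * (B' * r * r) + 2 * CD * (q * r) := by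
    field_simp
  have h6 : CM / c₀ * (B' * r * r) ≤ CM / c₀ * (q * r) := by
    apply mul_le_mul_of_nonneg_left _ hk
    apply mul_le_mul_of_nonneg_right _ hr.le
    refine hB.trans ?_
    rw [pow_two]
    exact mul_le_of_le_one_left hq.le hq1
  have h12 : q * (2 * CM / c₀ + 4 * CD) * r ≤ 1 / 32 * r := mul_le_mul_of_nonneg_right hqs hr.le
  have h13 : q * (2 * CM / c₀ + 4 * CD) * r = 2 * (CM / c₀ * (q * r)) + 4 * (CD * (q * r)) := by
    ring
  have h14 : CM / c₀ * (r * q / 2) = (CM / c₀ * (q * r)) / 2 := by ring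
  have h15 : CM / c₀ * (q * r / 2) = (CM / c₀ * (q * r)) / 2 := by ring
  have h16 : 2 * CD * (r * q) = 2 * (CD * (q * r)) := by ring
  have h17 : 2 * CD * (q * r) = 2 * (CD * (q * r)) := by ring
  rw [h14, h16] at h1
  rw [h5, h15, h17] at h4
  linarith

theorem t_ALTH (hT : S_TCUT) (hK : S_KER2) (hD : S_DYMO) (hH : S_HBD) (hM : S_MC)
    (hP : S_PERS) : S_ALTH := by
  obtain ⟨Ck, hCk, hker⟩ := hK
  obtain ⟨CD, hCD, hdy⟩ := hD
  obtain ⟨CH, hCH, hhb⟩ := hH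
  obtain ⟨CM, c₀, hc₀, hc₀C, hmc⟩ := hM
  have hCM : 0 < CM := hc₀.trans_le hc₀C
  obtain ⟨C₀, hC₀⟩ : ∃ C₀, C₀ = 3 * CH + CM := ⟨_, rfl⟩
  obtain ⟨δP, K, c₂, hδP, hK1, hc₂, hpers⟩ := hP C₀ (c₀ / 16) (by positivity)
    (by rw [hC₀]; linarith)
  obtain ⟨κ₀, hκ₀⟩ : ∃ κ₀ : ℕ, K < 2 ^ κ₀ := pow_unbounded_of_one_lt K one_lt_two
  obtain ⟨q, hq⟩ : ∃ q, q = 1 / (32 * (2 * CM / c₀ + 4 * CD + 1)) := ⟨_, rfl⟩
  have hq0 : 0 < q := by rw [hq]; positivity
  have hk0 : 0 < 2 * CM / c₀ + 4 * CD := by positivity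
  have hq1 : q ≤ 1 := by
    rw [hq, div_le_one (by positivity)]
    linarith
  have hqs : q * (2 * CM / c₀ + 4 * CD) ≤ 1 / 32 := by
    rw [hq, one_div_mul_eq_div, div_le_div_iff₀ (by positivity) (by norm_num)]
    linarith
  have hδ0 : 0 < min δP (q ^ 2) := by positivity
  refine ⟨min δP (q ^ 2), c₂, κ₀, hδ0, hc₂, fun E => ?_⟩
  obtain ⟨n₁, hn₁⟩ := rr_small hδ0 (by positivity : (0 : ℝ) ≤ 1 + E ^ 2)
  refine ⟨max 2 n₁, ?_⟩
  intro T D G u p h n j hn t₀ x₀ ht1 ht2 X Y B C hX hX0 hfar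
  obtain ⟨t, htL, htt, hfar⟩ := hfar
  have hn2 : 2 ≤ n := (le_max_left _ _).trans hn
  have hBr := hn₁ n ((le_max_right _ _).trans hn)
  obtain ⟨δ, hδ⟩ : ∃ δ, δ = min δP (q ^ 2) := ⟨_, rfl⟩
  rw [← hδ] at hBr hδ0
  rw [← hδ]
  have hδ1 : δ ≤ δP := by rw [hδ]; exact min_le_left _ _
  have hδ2 : δ ≤ q ^ 2 := by rw [hδ]; exact min_le_right _ _
  by_contra hcon
  simp only [not_or, not_le] at hcon
  obtain ⟨a1, a2, a3, a4⟩ := hcon
  unfold II at a1 a2 a3 a4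
  obtain ⟨I, hI⟩ : ∃ I : Set ℝ, I = Ioo (t₀ - rr n ^ 2) (t₀ + rr n ^ 2) := ⟨_, rfl⟩
  rw [← hI] at a1 a2 a3 a4
  have hr := rrp n
  have hr1 : rr n ≤ 1 := by
    unfold rr
    exact pow_le_one₀ (by norm_num) (by norm_num)
  have hσ := rrp (n + j)
  have hσr : rr (n + j) ≤ rr n := by
    unfold rr
    exact pow_le_pow_of_le_one (by norm_num) (by norm_num) (by omega)
  have hσ2 : rr (n + j) ^ 2 ≤ rr n ^ 2 := pow_le_pow_left₀ hσ.le hσr 2
  obtain ⟨U, hU⟩ : ∃ U, U = 4 ^ j / rr n := ⟨_, rfl⟩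
  rw [← hU] at a2 a3 a4
  have hU0 : 0 < U := by rw [hU]; positivity
  have hUr : U * rr n = 4 ^ j := by rw [hU]; field_simp
  have hUσ : U * rr (n + j) ^ 2 = rr n := by
    rw [hU, div_mul_eq_mul_div, mul_comm, rr_add]
    field_simp
  have hIT : I ⊆ Ioo 0 T := by
    rw [hI]
    intro τ hτ
    exact ⟨ht1.trans hτ.1, hτ.2.trans ht2⟩
  have hIae := sub_ae h hIT
  have hnull : volume (I \ G) = 0 := by
    refine measure_mono_null ?_ h.fullG
    exact fun τ hτ => ⟨hIT hτ.1, hτ.2⟩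
  obtain ⟨hgs, hes, hen, hall⟩ := hker (rr n) hr hr1
  have hg0 : ∀ z, 1 / 2 ≤ ‖z‖ → gg (rr n) z = 0 := fun z hz => ((hall z).1 hz).1
  obtain ⟨κ, hκ1, hκ2, hcmp⟩ := hmc n hn2
  obtain ⟨B', hB'⟩ : ∃ B', B' = 1 + E ^ 2 := ⟨_, rfl⟩
  rw [← hB'] at hBr
  have hB'0 : 0 ≤ B' := by rw [hB']; positivity
  obtain ⟨Mf, hMf⟩ : ∃ Mf : ℝ → V, Mf = fun t l => MN (rr n) (u t) x₀ l := ⟨_, rfl⟩
  obtain ⟨cf, hcf⟩ : ∃ cf : ℝ → V, cf = fun t => mo (rr n) (u t) x₀ := ⟨_, rfl⟩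
  obtain ⟨hf, hhf⟩ : ∃ hf : ℝ → ℝ, hf = fun t => ∑ l, |HH (rr n) (u t) x₀ l| := ⟨_, rfl⟩
  have hN2i : IntegrableOn (fun t => NN2 n (u t) x₀) I := (NN2_int h n x₀).mono_set_ae hIae
  -- the comparison of the means
  have F1 : ∀ τ ∈ G, ‖Mf τ - κ • cf τ‖ ≤ CM * (√(NN2 n (u τ) x₀ * rr n) + B') := by
    intro τ hτ
    rw [pi_norm_le_iff_of_nonneg (by positivity)]
    intro l
    have h1 := hcmp (u τ) (h.spv hτ) (h.divfree τ hτ) x₀ l
    rw [hMf, hcf]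
    refine h1.trans (mul_le_mul_of_nonneg_left ?_ hCM.le)
    have := h.energy_le τ hτ
    rw [hB']
    linarith
  have F2 : ∀ τ ∈ G, hf τ ≤ C₀ * (NN1 n (2 * j + κ₀) (u τ) x₀ + NN2 n (u τ) x₀
      + ‖cf τ‖ * √(NN2 n (u τ) x₀ / rr n) + √(NN2 n (u τ) x₀) / √(rr n ^ 3)
      + NF n (2 * j + κ₀) (u τ) x₀ + ‖cf τ‖ ^ 2 / (2 ^ (2 * j + κ₀) * rr n) + B') := by
    intro τ hτ
    obtain ⟨Q, hQ⟩ : ∃ Q, Q = NN1 n (2 * j + κ₀) (u τ) x₀ + NN2 n (u τ) x₀
      + ‖cf τ‖ * √(NN2 n (u τ) x₀ / rr n) + √(NN2 n (u τ) x₀) / √(rr n ^ 3)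
      + NF n (2 * j + κ₀) (u τ) x₀ + ‖cf τ‖ ^ 2 / (2 ^ (2 * j + κ₀) * rr n) := ⟨_, rfl⟩
    rw [← hQ]
    have hQ0 : 0 ≤ Q := by
      rw [hQ]
      have := NN1_nn n (2 * j + κ₀) (u τ) x₀
      have := NN2_nn n (u τ) x₀
      have := NF_nn n (2 * j + κ₀) (u τ) x₀
      positivity
    have h1 : ∀ l, |HH (rr n) (u τ) x₀ l| ≤ CH * (Q + B') := by
      intro l
      have h2 := hhb (u τ) (h.spv hτ) (h.divfree τ hτ) n (2 * j + κ₀) hn2 x₀ l
      refine h2.trans (mul_le_mul_of_nonneg_left ?_ hCH.le)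
      have := h.energy_le τ hτ
      rw [hQ, hB', hcf]
      linarith
    rw [hhf]
    have h3 : ∑ l, |HH (rr n) (u τ) x₀ l| ≤ ∑ _l : Fin 3, CH * (Q + B') :=
      Finset.sum_le_sum fun l _ => h1 l
    simp at h3
    have h4 : 0 ≤ CM * (Q + B') := by positivity
    rw [hC₀]
    refine h3.trans ?_
    linarith
  have F3 : ∀ s ∈ G, ∀ t ∈ G, s ≤ t → IntegrableOn hf (Ioo s t) ∧
      ‖Mf t - Mf s‖ ≤ ∫ τ in Ioo s t, hf τ := by
    intro s hs t ht hst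
    have h1 := fun l => MN_mod hT h hgs hg0 x₀ l hs ht hst
    have h2 : IntegrableOn hf (Ioo s t) := by
      rw [hhf]
      exact integrable_finsetSum _ fun l _ => (h1 l).1.abs
    refine ⟨h2, ?_⟩
    have h0 : ∀ τ, 0 ≤ hf τ := fun τ => by
      rw [hhf]
      exact Finset.sum_nonneg fun l _ => abs_nonneg _
    rw [pi_norm_le_iff_of_nonneg (integral_nonneg h0)]
    intro l
    have h3 : (Mf t - Mf s) l = ∫ τ in Ioo s t, HH (rr n) (u τ) x₀ l := by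
      rw [← (h1 l).2, hMf]
      rfl
    rw [h3]
    refine norm_integral_le_of_norm_le h2 (Filter.Eventually.of_forall fun τ => ?_)
    rw [hhf]
    exact Finset.single_le_sum (f := fun l => |HH (rr n) (u τ) x₀ l|)
      (fun l _ => abs_nonneg _) (Finset.mem_univ l)
  -- the fast time
  have hfast : ∃ τ ∈ I ∩ G, c₀ / 16 * U ≤ ‖Mf τ‖ := by
    by_contra hno
    push Not at hno
    have habs := abs_lt.1 htt
    have hsubc : uIcc t₀ t ⊆ I := by
      rw [hI]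
      intro τ hτ
      rw [mem_uIcc] at hτ
      rcases hτ with h1 | h1
      · constructor
        · have : 0 < rr n ^ 2 := by positivity
          linarith [h1.1]
        · linarith [h1.2]
      · constructor
        · linarith [h1.1]
        · have : 0 < rr n ^ 2 := by positivity
          linarith [h1.2]
    have hsubo : uIoc t₀ t ⊆ I := uIoc_subset_uIcc.trans hsubc
    have hae : ∀ᵐ τ ∂(volume.restrict (uIoc t₀ t)), τ ∈ G := by
      rw [ae_restrict_iff' measurableSet_uIoc]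
      exact sub_ae h (hsubo.trans hIT)
    have hft := first_time (X := X) (Y := Y) (N := fun τ => NN2 n (u τ) x₀) (G := G)
      (t₀ := t₀) (t := t) (r := rr n / 8) (L := rr (n + j) ^ 2)
      (a := 1 / c₀ * (c₀ / 4 * (U / 4) + CM * (q / (2 * rr n)) + CM * B')
        + CD * (2 * rr n * q / rr n ^ 2))
      (b := 1 / c₀ * (CM * (rr n * rr n / (2 * q))) + CD * (2 * rr n * rr n / q))
      (by positivity) (by positivity) (by positivity) (fun τ hτ => hX.hd τ (hIT (hsubc hτ)))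
      (intervalIntegrable_iff.2 ((FPath_Y_int h hX).mono_set (hsubo.trans hIT))) htL
      hfar hae (hN2i.mono_set hsubo) (fun τ => NN2_nn n (u τ) x₀) (by
        intro τ hτ hτI hle
        have hle' : ‖X τ - x₀‖ ≤ rr n := by
          have e : X τ - x₀ = (X τ - X t₀) + (X t₀ - x₀) := by abel
          rw [e]
          have := norm_add_le (X τ - X t₀) (X t₀ - x₀)
          linarith
        have h1 := hno τ ⟨hsubo hτI, hτ⟩
        have h1' : ‖Mf τ‖ ≤ c₀ / 4 * (U / 4) := by linarith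
        have h2 := F1 τ hτ
        have h3 := hdy (u τ) (h.spv hτ).1 x₀ (X τ) (rr n) (rr n) hr le_rfl hle'
        rw [← hX.ev τ hτ] at h3
        have h4 := B2_le_NN2 hn2 (u τ) x₀
        have h5 : cf τ = mo (rr n) (u τ) x₀ := by rw [hcf]
        rw [← h5] at h3
        exact speed hc₀ hCM hCD hq0 hκ1 hr hr (NN2_nn n (u τ) x₀) h1' h2 h3 h4)
    have hQ : ∫ τ in uIoc t₀ t, NN2 n (u τ) x₀ ≤ q ^ 2 / rr n := by
      have h1 : ∫ τ in uIoc t₀ t, NN2 n (u τ) x₀ ≤ ∫ τ in I, NN2 n (u τ) x₀ :=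
        setIntegral_mono_set hN2i (Filter.Eventually.of_forall fun τ => NN2_nn n (u τ) x₀)
          hsubo.eventuallyLE
      refine h1.trans (a1.le.trans ?_)
      exact div_le_div_of_nonneg_right hδ2 hr.le
    exact arith' hc₀ hCM hCD hq0 hq1 hqs hr (by positivity) hσ2 hUσ hB'0 (hBr.trans hδ2) hQ hft
  -- persistence
  obtain ⟨s', hs'G, hs'0, hs'1⟩ := ex_reg h ht1 le_rfl (by linarith [pow_pos hr 2])
  obtain ⟨t', ht'G, ht'0, ht'1⟩ := ex_reg h ht2 (by linarith [pow_pos hr 2]) le_rfl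
  have hhfi : IntegrableOn hf I := by
    have h1 := (F3 s' hs'G t' ht'G (by linarith [pow_pos hr 2])).1
    rw [hI]
    exact h1.mono_set (Ioo_subset_Ioo hs'1.le ht'0.le)
  have hfin := hpers (rr n) t₀ U B' (2 ^ (2 * j + κ₀) * rr n) κ G Mf cf hf
    (fun t => NN1 n (2 * j + κ₀) (u t) x₀) (fun t => NN2 n (u t) x₀)
    (fun t => NF n (2 * j + κ₀) (u t) x₀) hr hr1
    (by rw [hUr]; exact one_le_pow₀ (by norm_num)) hB'0 (hBr.trans hδ1)
    (by
      have h1 : K * U * rr n ^ 2 = K * 4 ^ j * rr n := by rw [← hUr]; ring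
      have h2 : (2 : ℝ) ^ (2 * j + κ₀) = 2 ^ κ₀ * 4 ^ j := by
        rw [pow_add, pow_mul]
        norm_num
        ring
      rw [h1, h2]
      exact mul_le_mul_of_nonneg_right (mul_le_mul_of_nonneg_right hκ₀.le (by positivity)) hr.le)
    (by linarith) (by rw [hC₀]; linarith) h.openG (by rw [← hI]; exact hnull)
    (fun t => NN1_nn _ _ _ _) (fun t => NN2_nn _ _ _) (fun t => NF_nn _ _ _ _)
    (by rw [← hI]; exact (NN1_int h n _ x₀).mono_set_ae hIae)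
    (by rw [← hI]; exact hN2i)
    (by rw [← hI]; exact (NF_int h n _ x₀).mono_set_ae hIae)
    (by rw [← hI]; exact hhfi)
    (by rw [← hI, hcf]; exact (mo_int h hr hr1 x₀).mono_set_ae hIae)
    (by rw [← hI]; exact a1.le.trans (div_le_div_of_nonneg_right hδ1 hr.le))
    (by rw [← hI]; exact a2.le.trans (mul_le_mul_of_nonneg_right hδ1 hU0.le))
    (by rw [← hI]; exact a3.le.trans (mul_le_mul_of_nonneg_right hδ1 hU0.le))
    (fun s hs t ht hst => (F3 s hs.2 t ht.2 hst).2)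
    (fun τ hτ => F2 τ hτ.2)
    (fun τ hτ => (F1 τ hτ.2).trans (mul_le_mul_of_nonneg_right (by rw [hC₀]; linarith)
      (by positivity)))
    (by rw [← hI]; exact hfast)
  rw [← hI, hcf] at hfin
  linarith

end Pool.Agent.Y285.NS
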